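import Pool.Agent.AT6.Stmts4

/-!
# RKA: the condition `|V : V ^ ℓ| ≤ ℓ ^ r`
-/

set_option autoImplicit false
set_option linter.unusedSectionVars false
set_option linter.style.haveILetI false

noncomputable section

namespace Pool.Agent.PP.T6.H95

open Pool.Agent.Helper51_AWC Pool.Agent.Helper79_WRA Pool.Agent.PP Pool.Agent.PP.KF
open Pool.Agent.PP.K9 Pool.Agent.PP.K9.H97 Pool.Agent.PP.H75 Pool.Agent.PP.T3 Pool.Agent.PP.T2

section

variable {G : Type} [Group G] [Finite G]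

/-- the map `v ↦ v ^ n` -/
def pw {V : Subgroup G} (hV : ∀ a ∈ V, ∀ b ∈ V, a * b = b * a) (n : ℕ) : V →* V where
  toFun v := v ^ n
  map_one' := one_pow n
  map_mul' a b := by
    have h : Commute a b := by
      ext
      exact hV a a.2 b b.2
    exact h.mul_pow n

theorem Uw_range (hPWU : PwuStmt) {V : Subgroup G} (hV : ∀ a ∈ V, ∀ b ∈ V, a * b = b * a) (n : ℕ) :
    (Uw n V).subgroupOf V = (pw hV n).range := by
  obtain ⟨h1, h2, -⟩ := hPWU G n V hV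
  ext x
  rw [Subgroup.mem_subgroupOf, h1, MonoidHom.mem_range]
  constructor
  · rintro ⟨v, hv, h⟩
    exact ⟨⟨v, hv⟩, Subtype.ext h.symm⟩
  · rintro ⟨v, rfl⟩
    exact ⟨v, v.2, rfl⟩

theorem Uw_card (hPWU : PwuStmt) {V : Subgroup G} (hV : ∀ a ∈ V, ∀ b ∈ V, a * b = b * a) (n : ℕ) :
    Nat.card (Uw n V) = Nat.card (pw hV n).range := by
  obtain ⟨h1, h2, -⟩ := hPWU G n V hV
  rw [← Uw_range hPWU hV n]
  exact (Nat.card_congr (Subgroup.subgroupOfEquivOfLe h2).toEquiv).symm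

/-- the condition in terms of the index -/
theorem idx_iff (hPWU : PwuStmt) {V : Subgroup G} (hV : ∀ a ∈ V, ∀ b ∈ V, a * b = b * a) (n k : ℕ) :
    Nat.card V ≤ k * Nat.card (Uw n V) ↔ (pw hV n).range.index ≤ k := by
  rw [Uw_card hPWU hV n, ← Subgroup.card_mul_index (pw hV n).range, mul_comm]
  have h : 0 < Nat.card (pw hV n).range := Nat.card_pos
  exact Nat.mul_le_mul_right_iff h

theorem ker_le (hPWU : PwuStmt) {V : Subgroup G} (hV : ∀ a ∈ V, ∀ b ∈ V, a * b = b * a)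
    {n k : ℕ} (h : Nat.card V ≤ k * Nat.card (Uw n V)) : Nat.card (pw hV n).ker ≤ k := by
  rw [Uw_card hPWU hV n, ← Subgroup.card_mul_index (pw hV n).ker, Subgroup.index_ker] at h
  have h0 : 0 < Nat.card (pw hV n).range := Nat.card_pos
  exact (Nat.mul_le_mul_right_iff h0).1 h

theorem step (hPWU : PwuStmt) {V : Subgroup G} (hV : ∀ a ∈ V, ∀ b ∈ V, a * b = b * a)
    {ℓ k : ℕ} (h : Nat.card V ≤ k * Nat.card (Uw ℓ V)) (n : ℕ) :
    Nat.card (Uw n V) ≤ k * Nat.card (Uw (n * ℓ) V) := by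
  rw [Uw_card hPWU hV, Uw_card hPWU hV]
  set S := (pw hV n).range with hS
  have h1 : ((pw hV ℓ).comp S.subtype).range = (pw hV (n * ℓ)).range := by
    ext x
    constructor
    · rintro ⟨⟨_, ⟨y, rfl⟩⟩, rfl⟩
      exact ⟨y, pow_mul y n ℓ⟩
    · rintro ⟨y, rfl⟩
      exact ⟨⟨pw hV n y, ⟨y, rfl⟩⟩, (pow_mul y n ℓ).symm⟩
  have h2 : Nat.card S = Nat.card ((pw hV ℓ).comp S.subtype).ker *
      Nat.card (pw hV (n * ℓ)).range := by
    rw [← h1, ← Subgroup.index_ker ((pw hV ℓ).comp S.subtype), Subgroup.card_mul_index]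
  rw [h2]
  refine Nat.mul_le_mul_right _ (le_trans ?_ (ker_le hPWU hV h))
  refine Nat.card_le_card_of_injective
    (fun x => (⟨x.1.1, x.2⟩ : (pw hV ℓ).ker)) ?_
  intro x y hxy
  apply Subtype.ext
  apply Subtype.ext
  exact congrArg (fun z : (pw hV ℓ).ker => (z : V)) hxy

theorem part1 (hPWU : PwuStmt) {V : Subgroup G} (hV : ∀ a ∈ V, ∀ b ∈ V, a * b = b * a)
    {ℓ r : ℕ} (h : Nat.card V ≤ ℓ ^ r * Nat.card (Uw ℓ V)) (n : ℕ) :
    Nat.card V ≤ ℓ ^ (r * n) * Nat.card (Uw (ℓ ^ n) V) := by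
  induction n with
  | zero =>
    have h1 : (pw hV 1).range = ⊤ := by
      rw [eq_top_iff]
      rintro x -
      exact ⟨x, pow_one x⟩
    rw [mul_zero, pow_zero, one_mul, Uw_card hPWU hV, h1, Subgroup.card_top]
  | succ n ih =>
    refine le_trans ih ?_
    have h1 := step hPWU hV h (ℓ ^ n)
    rw [mul_add, mul_one, pow_add, mul_assoc, pow_succ]
    exact Nat.mul_le_mul_left _ h1

theorem part2 (hPWU : PwuStmt) {V : Subgroup G} (hV : ∀ a ∈ V, ∀ b ∈ V, a * b = b * a)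
    {ℓ : ℕ} [Fact ℓ.Prime] (hP : IsPGroup ℓ V) (h : Nat.card V ≤ 1 * Nat.card (Uw ℓ V)) :
    V = ⊥ := by
  by_contra hne
  have h1 := ker_le hPWU hV h
  obtain ⟨n, hn⟩ := (IsPGroup.iff_card (p := ℓ) (G := V)).1 hP
  have hn0 : n ≠ 0 := by
    rintro rfl
    rw [pow_zero] at hn
    exact hne (Subgroup.card_eq_one.1 hn)
  have hd : ℓ ∣ Nat.card V := by
    rw [hn]
    exact dvd_pow_self ℓ hn0
  obtain ⟨x, hx⟩ := exists_prime_orderOf_dvd_card' ℓ hd
  have hx1 : x ∈ (pw hV ℓ).ker := by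
    rw [MonoidHom.mem_ker]
    show x ^ ℓ = 1
    rw [← hx, pow_orderOf_eq_one]
  have h2 : (⟨x, hx1⟩ : (pw hV ℓ).ker) = 1 := by
    haveI : Subsingleton (pw hV ℓ).ker := by
      rw [← Finite.card_le_one_iff_subsingleton]
      exact h1
    exact Subsingleton.elim _ _
  have h3 : x = 1 := congrArg Subtype.val h2
  rw [h3, orderOf_one] at hx
  exact (Fact.out : ℓ.Prime).one_lt.ne hx

theorem comm_img {V : Subgroup G} (hV : ∀ a ∈ V, ∀ b ∈ V, a * b = b * a) {H : Type} [Group H]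
    {V' : Subgroup H} {π : V →* V'} (hπ : Function.Surjective π) :
    ∀ a ∈ V', ∀ b ∈ V', a * b = b * a := by
  intro a ha b hb
  obtain ⟨x, hx⟩ := hπ ⟨a, ha⟩
  obtain ⟨y, hy⟩ := hπ ⟨b, hb⟩
  have h1 : x * y = y * x := Subtype.ext (hV x x.2 y y.2)
  have h2 : (⟨a, ha⟩ : V') * ⟨b, hb⟩ = ⟨b, hb⟩ * ⟨a, ha⟩ := by
    rw [← hx, ← hy, ← map_mul, h1, map_mul]
  exact congrArg Subtype.val h2

theorem le_comap {V : Subgroup G} (hV : ∀ a ∈ V, ∀ b ∈ V, a * b = b * a) {H : Type} [Group H]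
    {V' : Subgroup H} (hV' : ∀ a ∈ V', ∀ b ∈ V', a * b = b * a) (π : V →* V') (n : ℕ) :
    (pw hV n).range ≤ ((pw hV' n).range).comap π := by
  rintro x ⟨y, rfl⟩
  exact ⟨π y, (map_pow π y n).symm⟩

theorem part3 (hPWU : PwuStmt) {V : Subgroup G} (hV : ∀ a ∈ V, ∀ b ∈ V, a * b = b * a)
    {n k : ℕ} (h : Nat.card V ≤ k * Nat.card (Uw n V)) {H : Type} [Group H] [Finite H]
    {V' : Subgroup H} {π : V →* V'} (hπ : Function.Surjective π) :
    Nat.card V' ≤ k * Nat.card (Uw n V') := by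
  have hV' := comm_img hV hπ
  rw [idx_iff hPWU hV'] 
  rw [idx_iff hPWU hV] at h
  refine le_trans ?_ h
  rw [← Subgroup.index_comap_of_surjective _ hπ]
  refine Nat.le_of_dvd ?_ (Subgroup.index_dvd_of_le (le_comap hV hV' π n))
  exact Nat.pos_of_ne_zero Subgroup.index_ne_zero_of_finite

theorem part4 (hPWU : PwuStmt) {V : Subgroup G} (hV : ∀ a ∈ V, ∀ b ∈ V, a * b = b * a)
    {ℓ r : ℕ} [Fact ℓ.Prime] (hP : IsPGroup ℓ V) (h : Nat.card V ≤ ℓ ^ r * Nat.card (Uw ℓ V))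
    {a : ℕ} (ha : 0 < a) (hexp : Monoid.exponent V = ℓ ^ a) {v : V} (hv : orderOf v = ℓ ^ a)
    {H : Type} [Group H] [Finite H] {V' : Subgroup H} {π : V →* V'} (hπ : Function.Surjective π)
    (hv1 : π v = 1) : Nat.card V' ≤ ℓ ^ (r - 1) * Nat.card (Uw ℓ V') := by
  have hℓ : ℓ.Prime := Fact.out
  have hV' := comm_img hV hπ
  rw [idx_iff hPWU hV'] 
  rw [idx_iff hPWU hV] at h
  rw [← Subgroup.index_comap_of_surjective _ hπ]
  have hle := le_comap hV hV' π ℓ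
  have hvn : v ∉ (pw hV ℓ).range := by
    rintro ⟨w, hw⟩
    have hw' : v = w ^ ℓ := hw.symm
    have h1 : v ^ ℓ ^ (a - 1) = 1 := by
      rw [hw', ← pow_mul, ← pow_succ', Nat.sub_add_cancel ha, ← hexp, Monoid.pow_exponent_eq_one]
    have h2 := orderOf_dvd_of_pow_eq_one h1
    rw [hv] at h2
    have h3 := Nat.le_of_dvd (pow_pos hℓ.pos _) h2
    have h4 := (Nat.pow_le_pow_iff_right hℓ.one_lt).1 h3
    omega
  have hne : ((pw hV' ℓ).range.comap π).index ≠ (pw hV ℓ).range.index := by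
    intro heq
    have h1 := Subgroup.card_mul_index ((pw hV' ℓ).range.comap π)
    rw [heq, ← Subgroup.card_mul_index (pw hV ℓ).range] at h1
    have h2 : Nat.card ((pw hV' ℓ).range.comap π) = Nat.card (pw hV ℓ).range :=
      Nat.eq_of_mul_eq_mul_right (Nat.pos_of_ne_zero Subgroup.index_ne_zero_of_finite) h1
    have h3 : (pw hV ℓ).range = (pw hV' ℓ).range.comap π :=
      Subgroup.eq_of_le_of_card_ge hle h2.le
    apply hvn
    rw [h3, Subgroup.mem_comap, hv1]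
    exact one_mem _
  obtain ⟨n, hn⟩ := (IsPGroup.iff_card (p := ℓ) (G := V)).1 hP
  have hd1 : (pw hV ℓ).range.index ∣ ℓ ^ n := by
    rw [← hn]
    exact Subgroup.index_dvd_card _
  obtain ⟨s, -, hs⟩ := (Nat.dvd_prime_pow hℓ).1 hd1
  have hd2 := Subgroup.index_dvd_of_le hle
  rw [hs] at hd2
  obtain ⟨t, ht1, ht⟩ := (Nat.dvd_prime_pow hℓ).1 hd2
  rw [ht]
  rw [hs, ht] at hne
  rw [hs] at h
  have h5 := (Nat.pow_le_pow_iff_right hℓ.one_lt).1 h
  refine Nat.pow_le_pow_right hℓ.pos ?_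
  have h6 : t ≠ s := fun h => hne (by rw [h])
  omega

end

theorem rka (hPWU : PwuStmt) : RkaStmt := by
  intro ℓ hℓ G _ _ V hP hV r h
  refine ⟨part1 hPWU hV h, ?_, ?_, ?_⟩
  · rintro rfl
    rw [pow_zero] at h
    exact part2 hPWU hV hP h
  · rintro H _ _ V' ⟨π, hπ⟩
    exact part3 hPWU hV h hπ
  · intro a ha hexp v hv hvo C hC A _ _ p hp
    let π : V →* (V.subgroupOf C).map p :=
      { toFun := fun x => ⟨p ⟨x, hC x.2⟩, Subgroup.mem_map.2 ⟨⟨x, hC x.2⟩,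
          Subgroup.mem_subgroupOf.2 x.2, rfl⟩⟩
        map_one' := by
          ext
          exact map_one p
        map_mul' := by
          intro x y
          ext
          exact map_mul p ⟨x, hC x.2⟩ ⟨y, hC y.2⟩ }
    have hπ : Function.Surjective π := by
      rintro ⟨y, hy⟩
      obtain ⟨x, hx, rfl⟩ := Subgroup.mem_map.1 hy
      exact ⟨⟨x, Subgroup.mem_subgroupOf.1 hx⟩, rfl⟩
    have hv1 : π ⟨v, hv⟩ = 1 := by
      ext
      exact (hp ⟨v, hC hv⟩).2 (Subgroup.mem_zpowers v)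
    have hvo' : orderOf (⟨v, hv⟩ : V) = ℓ ^ a := by
      rw [← hvo, Subgroup.orderOf_mk]
    exact part4 hPWU hV hP h ha hexp hvo' hπ hv1

end Pool.Agent.PP.T6.H95
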